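import Pool.Agent.Lib.helper28.BilA

set_option autoImplicit false

namespace Pool.Agent.Results.MP_f72ff1_an.Unbounded

open MeasureTheory

/-- surface measure on the unit sphere attached to `μ`, normalised to total mass one -/
noncomputable def nsurf {V : Type} [NormedAddCommGroup V] [NormedSpace ℝ V] [MeasurableSpace V]
    (μ : Measure V) : Measure (Metric.sphere (0 : V) 1) :=
  (μ.toSphere Set.univ)⁻¹ • μ.toSphere

/-- average of `F` over the unit sphere of the Euclidean space `V` -/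
noncomputable def savg {V : Type} [NormedAddCommGroup V] [InnerProductSpace ℝ V]
    [FiniteDimensional ℝ V] [MeasurableSpace V] [BorelSpace V] (F : V → ℝ) : ℝ :=
  ∫ w : Metric.sphere (0 : V) 1, F w.1 ∂(nsurf volume)

variable {E : Type} [NormedAddCommGroup E] [InnerProductSpace ℝ E] [FiniteDimensional ℝ E]
  [MeasurableSpace E] [BorelSpace E]

/-- the bilinear spherical average -/
noncomputable def A (t : ℝ) (f g : E → ℝ) (x : E) : ℝ :=
  savg fun w : WithLp 2 (E × E) => f (x - t • w.fst) * g (x - t • w.snd)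

/-- the lacunary bilinear spherical maximal function -/
noncomputable def Mlac (f g : E → ℝ) (x : E) : ENNReal := ⨆ l : ℤ, ‖A ((2:ℝ) ^ l) f g x‖ₑ

/-- smooth with compact support -/
def Test (f : E → ℝ) : Prop := ContDiff ℝ (⊤ : ℕ∞) f ∧ HasCompactSupport f

variable (E) in
/-- the bound `L^1 × L^q → L^{q/(q+1)}` on test functions -/
def Bdd (q : ℝ) : Prop := ∃ C : NNReal, ∀ f g : E → ℝ, Test f → Test g →
  (∫⁻ x, Mlac f g x ^ (q / (q + 1))) ^ ((q + 1) / q) ≤
    C * eLpNorm f 1 volume * eLpNorm g (ENNReal.ofReal q) volume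

theorem result (d : ℕ) (hd : 2 ≤ d) (q : ℝ) (hq : 1 ≤ q) : ¬ Bdd (EuclideanSpace ℝ (Fin d)) q :=
  fun ⟨C, hC⟩ => Pool.Agent.H28Bil.main (EuclideanSpace.single (⟨0, by omega⟩ : Fin d) (1:ℝ))
    (by simp) q hq ⟨C, fun f g a b c d => hC f g ⟨a, b⟩ ⟨c, d⟩⟩

end Pool.Agent.Results.MP_f72ff1_an.Unbounded
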